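import Mathlib

set_option autoImplicit false

/-!
# A simple solution of the Yang-Baxter equation on `Fin 2 × Fin 4` with two blocks of size four

The solution has eight elements; it was found by a SAT search over cycle sets. The elements `(i, j)` of
`Fin 2 × Fin 4` are numbered `4 i + j`. The permutation `σ_x` is the row `x` of the table `sg`, and `τ_y`
is the row `y` of the table `ta`. The permutation group generated by the `σ_x` has order 32.
-/

namespace Pool.Agent.Results.MP_9f168b_al.NonDividingBlocks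

/-- The map `r₁₂ = r × id` on `X × X × X`. -/
def r12 {X : Type} (r : X × X → X × X) (t : X × X × X) : X × X × X :=
  ((r (t.1, t.2.1)).1, (r (t.1, t.2.1)).2, t.2.2)

/-- The map `r₂₃ = id × r` on `X × X × X`. -/
def r23 {X : Type} (r : X × X → X × X) (t : X × X × X) : X × X × X :=
  (t.1, (r (t.2.1, t.2.2)).1, (r (t.2.1, t.2.2)).2)

/-- `(X, r)` is an involutive non-degenerate set-theoretic solution of the Yang-Baxter equation, where
`r (x, y) = (σ_x y, τ_y x)`. -/
structure IsSolution {X : Type} (r : X × X → X × X) : Prop where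
  nonempty : Nonempty X
  braid : ∀ t, r12 r (r23 r (r12 r t)) = r23 r (r12 r (r23 r t))
  invol : ∀ p, r (r p) = p
  left : ∀ x, Function.Bijective fun y => (r (x, y)).1
  right : ∀ y, Function.Bijective fun x => (r (x, y)).2

/-- `f` is a homomorphism from `(X, r)` to `(X', r')`: `(f × f) ∘ r = r' ∘ (f × f)`. -/
def IsHom {X X' : Type} (r : X × X → X × X) (r' : X' × X' → X' × X') (f : X → X') : Prop :=
  ∀ p, Prod.map f f (r p) = r' (Prod.map f f p)

/-- `(X, r)` is simple: it has more than one element, and every epimorphism from `(X, r)` onto a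
solution `(X', r')` is bijective or has `|X'| = 1`. -/
def IsSimple {X : Type} (r : X × X → X × X) : Prop :=
  1 < Nat.card X ∧ ∀ (X' : Type) (r' : X' × X' → X' × X'), IsSolution r' →
    ∀ f : X → X', IsHom r r' f → Function.Surjective f → Function.Bijective f ∨ Nat.card X' = 1

/-- The permutation `σ_x` of `X`. -/
noncomputable def sigma {X : Type} {r : X × X → X × X} (hr : IsSolution r) (x : X) : Equiv.Perm X :=
  Equiv.ofBijective (fun y => (r (x, y)).1) (hr.left x)

/-- The permutation group `𝒢(X, r)`, generated by the `σ_x`. -/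
def permGroup {X : Type} {r : X × X → X × X} (hr : IsSolution r) : Subgroup (Equiv.Perm X) :=
  Subgroup.closure (Set.range (sigma hr))

/-- the table of the `σ_x` -/
def sg (x y : Fin 8) : Fin 8 :=
  ⟨(1609044588594958137949851856209365768707341725520042312771 / 8 ^ (8 * x.val + y.val)) % 8, Nat.mod_lt _ (by norm_num)⟩

/-- the table of the `τ_y` -/
def ta (y x : Fin 8) : Fin 8 :=
  ⟨(1951923017543185086243151105314101848683915626337518915211 / 8 ^ (8 * y.val + x.val)) % 8, Nat.mod_lt _ (by norm_num)⟩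

/-- numbering of the elements -/
def enc (p : Fin 2 × Fin 4) : Fin 8 := ⟨4 * p.1.val + p.2.val, by omega⟩

/-- inverse numbering -/
def dec (i : Fin 8) : Fin 2 × Fin 4 := (⟨i.val / 4, by omega⟩, ⟨i.val % 4, by omega⟩)

theorem dec_enc (p : Fin 2 × Fin 4) : dec (enc p) = p := by
  revert p; decide

theorem enc_dec (i : Fin 8) : enc (dec i) = i := by
  revert i; decide

/-- the solution -/
def rr (p : (Fin 2 × Fin 4) × (Fin 2 × Fin 4)) : (Fin 2 × Fin 4) × (Fin 2 × Fin 4) :=
  (dec (sg (enc p.1) (enc p.2)), dec (ta (enc p.2) (enc p.1)))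

theorem c_0_1 {X : Type} (F : Fin 8 → X)
    (hL : ∀ u v w : Fin 8, F u = F v → F (sg u w) = F (sg v w))
    (hR : ∀ u v w : Fin 8, F u = F v → F (sg w u) = F (sg w v))
    (h : F 0 = F 1) : ∀ i, F i = F 0 := by
    have e1 : F 3 = F 6 := hL 0 1 0 h
    have e2 : F 3 = F 0 := hR 0 1 0 h
    have e3 : F 0 = F 4 := hL 0 1 1 h
    have e4 : F 1 = F 7 := hL 0 1 2 h
    have e5 : F 2 = F 5 := hL 0 1 3 h
    have e6 : F 1 = F 2 := hR 0 1 3 h
    have c1 : F 1 = F 0 := h.symm
    have c3 : F 3 = F 0 := e2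
    have c4 : F 4 = F 0 := e3.symm
    have c7 : F 7 = F 0 := (e4.symm).trans c1
    have c2 : F 2 = F 0 := (e6.symm).trans c1
    have c6 : F 6 = F 0 := (e1.symm).trans c3
    have c5 : F 5 = F 0 := (e5.symm).trans c2
    intro i; fin_cases i
    · rfl
    · exact c1
    · exact c2
    · exact c3
    · exact c4
    · exact c5
    · exact c6
    · exact c7

theorem c_0_2 {X : Type} (F : Fin 8 → X)
    (hL : ∀ u v w : Fin 8, F u = F v → F (sg u w) = F (sg v w))
    (hR : ∀ u v w : Fin 8, F u = F v → F (sg w u) = F (sg w v))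
    (h : F 0 = F 2) : ∀ i, F i = F 0 := by
    have e1 : F 3 = F 6 := hL 0 2 0 h
    have e2 : F 3 = F 1 := hR 0 2 0 h
    have e3 : F 0 = F 4 := hL 0 2 1 h
    have e4 : F 6 = F 7 := hR 0 2 1 h
    have e5 : F 2 = F 5 := hL 0 2 3 h
    have e6 : F 1 = F 0 := hL 3 6 0 e1
    have c2 : F 2 = F 0 := h.symm
    have c4 : F 4 = F 0 := e3.symm
    have c1 : F 1 = F 0 := e6
    have c5 : F 5 = F 0 := (e5.symm).trans c2
    have c3 : F 3 = F 0 := e2.trans c1
    have c6 : F 6 = F 0 := (e1.symm).trans c3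
    have c7 : F 7 = F 0 := (e4.symm).trans c6
    intro i; fin_cases i
    · rfl
    · exact c1
    · exact c2
    · exact c3
    · exact c4
    · exact c5
    · exact c6
    · exact c7

theorem c_0_3 {X : Type} (F : Fin 8 → X)
    (hL : ∀ u v w : Fin 8, F u = F v → F (sg u w) = F (sg v w))
    (hR : ∀ u v w : Fin 8, F u = F v → F (sg w u) = F (sg w v))
    (h : F 0 = F 3) : ∀ i, F i = F 0 := by
    have e1 : F 3 = F 1 := hL 0 3 0 h
    have e2 : F 3 = F 2 := hR 0 3 0 h
    have e3 : F 6 = F 5 := hR 0 3 1 h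
    have e4 : F 4 = F 6 := hR 0 3 4 h
    have e5 : F 5 = F 7 := hR 0 3 7 h
    have e6 : F 1 = F 6 := hL 3 1 0 e1
    have c3 : F 3 = F 0 := h.symm
    have c1 : F 1 = F 0 := (e1.symm).trans c3
    have c2 : F 2 = F 0 := (e2.symm).trans c3
    have c6 : F 6 = F 0 := (e6.symm).trans c1
    have c5 : F 5 = F 0 := (e3.symm).trans c6
    have c4 : F 4 = F 0 := e4.trans c6
    have c7 : F 7 = F 0 := (e5.symm).trans c5
    intro i; fin_cases i
    · rfl
    · exact c1
    · exact c2
    · exact c3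
    · exact c4
    · exact c5
    · exact c6
    · exact c7

theorem c_0_4 {X : Type} (F : Fin 8 → X)
    (hL : ∀ u v w : Fin 8, F u = F v → F (sg u w) = F (sg v w))
    (hR : ∀ u v w : Fin 8, F u = F v → F (sg w u) = F (sg w v))
    (h : F 0 = F 4) : ∀ i, F i = F 0 := by
    have e1 : F 3 = F 4 := hL 0 4 0 h
    have e2 : F 0 = F 7 := hL 0 4 1 h
    have e3 : F 6 = F 2 := hR 0 4 1 h
    have e4 : F 1 = F 5 := hL 0 4 2 h
    have e5 : F 6 = F 0 := hR 0 4 2 h
    have e6 : F 1 = F 4 := hR 0 4 3 h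
    have c4 : F 4 = F 0 := h.symm
    have c7 : F 7 = F 0 := e2.symm
    have c6 : F 6 = F 0 := e5
    have c3 : F 3 = F 0 := e1.trans c4
    have c1 : F 1 = F 0 := e6.trans c4
    have c2 : F 2 = F 0 := (e3.symm).trans c6
    have c5 : F 5 = F 0 := (e4.symm).trans c1
    intro i; fin_cases i
    · rfl
    · exact c1
    · exact c2
    · exact c3
    · exact c4
    · exact c5
    · exact c6
    · exact c7

theorem c_0_5 {X : Type} (F : Fin 8 → X)
    (hL : ∀ u v w : Fin 8, F u = F v → F (sg u w) = F (sg v w))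
    (hR : ∀ u v w : Fin 8, F u = F v → F (sg w u) = F (sg w v))
    (h : F 0 = F 5) : ∀ i, F i = F 0 := by
    have e1 : F 3 = F 0 := hL 0 5 0 h
    have e2 : F 0 = F 1 := hL 0 5 1 h
    have e3 : F 6 = F 0 := hR 0 5 1 h
    have e4 : F 1 = F 2 := hL 0 5 2 h
    have e5 : F 4 = F 7 := hL 0 5 4 h
    have e6 : F 4 = F 3 := hR 0 5 4 h
    have c5 : F 5 = F 0 := h.symm
    have c3 : F 3 = F 0 := e1
    have c1 : F 1 = F 0 := e2.symm
    have c6 : F 6 = F 0 := e3
    have c4 : F 4 = F 0 := e6.trans c3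
    have c2 : F 2 = F 0 := (e4.symm).trans c1
    have c7 : F 7 = F 0 := (e5.symm).trans c4
    intro i; fin_cases i
    · rfl
    · exact c1
    · exact c2
    · exact c3
    · exact c4
    · exact c5
    · exact c6
    · exact c7

theorem c_0_6 {X : Type} (F : Fin 8 → X)
    (hL : ∀ u v w : Fin 8, F u = F v → F (sg u w) = F (sg v w))
    (hR : ∀ u v w : Fin 8, F u = F v → F (sg w u) = F (sg w v))
    (h : F 0 = F 6) : ∀ i, F i = F 0 := by
    have e1 : F 3 = F 0 := hL 0 6 0 h
    have e2 : F 0 = F 1 := hL 0 6 1 h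
    have e3 : F 1 = F 2 := hL 0 6 2 h
    have e4 : F 4 = F 6 := hL 0 6 4 h
    have e5 : F 5 = F 7 := hL 0 6 5 h
    have e6 : F 6 = F 5 := hL 0 6 6 h
    have c6 : F 6 = F 0 := h.symm
    have c3 : F 3 = F 0 := e1
    have c1 : F 1 = F 0 := e2.symm
    have c4 : F 4 = F 0 := e4.trans c6
    have c5 : F 5 = F 0 := (e6.symm).trans c6
    have c2 : F 2 = F 0 := (e3.symm).trans c1
    have c7 : F 7 = F 0 := (e5.symm).trans c5
    intro i; fin_cases i
    · rfl
    · exact c1
    · exact c2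
    · exact c3
    · exact c4
    · exact c5
    · exact c6
    · exact c7

theorem c_0_7 {X : Type} (F : Fin 8 → X)
    (hL : ∀ u v w : Fin 8, F u = F v → F (sg u w) = F (sg v w))
    (hR : ∀ u v w : Fin 8, F u = F v → F (sg w u) = F (sg w v))
    (h : F 0 = F 7) : ∀ i, F i = F 0 := by
    have e1 : F 3 = F 5 := hL 0 7 0 h
    have e2 : F 3 = F 7 := hR 0 7 0 h
    have e3 : F 0 = F 6 := hL 0 7 1 h
    have e4 : F 1 = F 4 := hL 0 7 2 h
    have e5 : F 6 = F 1 := hR 0 7 2 h
    have e6 : F 2 = F 7 := hL 0 7 3 h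
    have c7 : F 7 = F 0 := h.symm
    have c6 : F 6 = F 0 := e3.symm
    have c3 : F 3 = F 0 := e2.trans c7
    have c2 : F 2 = F 0 := e6.trans c7
    have c1 : F 1 = F 0 := (e5.symm).trans c6
    have c5 : F 5 = F 0 := (e1.symm).trans c3
    have c4 : F 4 = F 0 := (e4.symm).trans c1
    intro i; fin_cases i
    · rfl
    · exact c1
    · exact c2
    · exact c3
    · exact c4
    · exact c5
    · exact c6
    · exact c7

theorem c_1_2 {X : Type} (F : Fin 8 → X)
    (hL : ∀ u v w : Fin 8, F u = F v → F (sg u w) = F (sg v w))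
    (hR : ∀ u v w : Fin 8, F u = F v → F (sg w u) = F (sg w v))
    (h : F 1 = F 2) : ∀ i, F i = F 0 := by
    have e1 : F 0 = F 1 := hR 1 2 0 h
    have e2 : F 4 = F 7 := hR 1 2 1 h
    have e3 : F 2 = F 3 := hR 1 2 3 h
    have e4 : F 7 = F 5 := hR 1 2 4 h
    have e5 : F 6 = F 4 := hR 1 2 7 h
    have e6 : F 3 = F 6 := hL 0 1 0 e1
    have c1 : F 1 = F 0 := e1.symm
    have c2 : F 2 = F 0 := (h.symm).trans c1
    have c3 : F 3 = F 0 := (e3.symm).trans c2
    have c6 : F 6 = F 0 := (e6.symm).trans c3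
    have c4 : F 4 = F 0 := (e5.symm).trans c6
    have c7 : F 7 = F 0 := (e2.symm).trans c4
    have c5 : F 5 = F 0 := (e4.symm).trans c7
    intro i; fin_cases i
    · rfl
    · exact c1
    · exact c2
    · exact c3
    · exact c4
    · exact c5
    · exact c6
    · exact c7

theorem c_1_3 {X : Type} (F : Fin 8 → X)
    (hL : ∀ u v w : Fin 8, F u = F v → F (sg u w) = F (sg v w))
    (hR : ∀ u v w : Fin 8, F u = F v → F (sg w u) = F (sg w v))
    (h : F 1 = F 3) : ∀ i, F i = F 0 := by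
    have e1 : F 6 = F 1 := hL 1 3 0 h
    have e2 : F 0 = F 2 := hR 1 3 0 h
    have e3 : F 4 = F 2 := hL 1 3 1 h
    have e4 : F 4 = F 5 := hR 1 3 1 h
    have e5 : F 7 = F 3 := hL 1 3 2 h
    have e6 : F 0 = F 6 := hL 6 1 0 e1
    have c2 : F 2 = F 0 := e2.symm
    have c6 : F 6 = F 0 := e6.symm
    have c4 : F 4 = F 0 := e3.trans c2
    have c1 : F 1 = F 0 := (e1.symm).trans c6
    have c5 : F 5 = F 0 := (e4.symm).trans c4
    have c3 : F 3 = F 0 := (h.symm).trans c1
    have c7 : F 7 = F 0 := e5.trans c3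
    intro i; fin_cases i
    · rfl
    · exact c1
    · exact c2
    · exact c3
    · exact c4
    · exact c5
    · exact c6
    · exact c7

theorem c_1_4 {X : Type} (F : Fin 8 → X)
    (hL : ∀ u v w : Fin 8, F u = F v → F (sg u w) = F (sg v w))
    (hR : ∀ u v w : Fin 8, F u = F v → F (sg w u) = F (sg w v))
    (h : F 1 = F 4) : ∀ i, F i = F 0 := by
    have e1 : F 6 = F 4 := hL 1 4 0 h
    have e2 : F 0 = F 4 := hR 1 4 0 h
    have e3 : F 4 = F 7 := hL 1 4 1 h
    have e4 : F 4 = F 2 := hR 1 4 1 h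
    have e5 : F 7 = F 5 := hL 1 4 2 h
    have e6 : F 0 = F 3 := hL 1 4 5 h
    have c4 : F 4 = F 0 := e2.symm
    have c3 : F 3 = F 0 := e6.symm
    have c1 : F 1 = F 0 := h.trans c4
    have c6 : F 6 = F 0 := e1.trans c4
    have c7 : F 7 = F 0 := (e3.symm).trans c4
    have c2 : F 2 = F 0 := (e4.symm).trans c4
    have c5 : F 5 = F 0 := (e5.symm).trans c7
    intro i; fin_cases i
    · rfl
    · exact c1
    · exact c2
    · exact c3
    · exact c4
    · exact c5
    · exact c6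
    · exact c7

theorem c_1_5 {X : Type} (F : Fin 8 → X)
    (hL : ∀ u v w : Fin 8, F u = F v → F (sg u w) = F (sg v w))
    (hR : ∀ u v w : Fin 8, F u = F v → F (sg w u) = F (sg w v))
    (h : F 1 = F 5) : ∀ i, F i = F 0 := by
    have e1 : F 6 = F 0 := hL 1 5 0 h
    have e2 : F 0 = F 5 := hR 1 5 0 h
    have e3 : F 4 = F 1 := hL 1 5 1 h
    have e4 : F 7 = F 2 := hL 1 5 2 h
    have e5 : F 4 = F 2 := hR 1 5 2 h
    have e6 : F 5 = F 3 := hL 1 5 3 h
    have c6 : F 6 = F 0 := e1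
    have c5 : F 5 = F 0 := e2.symm
    have c1 : F 1 = F 0 := h.trans c5
    have c3 : F 3 = F 0 := (e6.symm).trans c5
    have c4 : F 4 = F 0 := e3.trans c1
    have c2 : F 2 = F 0 := (e5.symm).trans c4
    have c7 : F 7 = F 0 := e4.trans c2
    intro i; fin_cases i
    · rfl
    · exact c1
    · exact c2
    · exact c3
    · exact c4
    · exact c5
    · exact c6
    · exact c7

theorem c_1_6 {X : Type} (F : Fin 8 → X)
    (hL : ∀ u v w : Fin 8, F u = F v → F (sg u w) = F (sg v w))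
    (hR : ∀ u v w : Fin 8, F u = F v → F (sg w u) = F (sg w v))
    (h : F 1 = F 6) : ∀ i, F i = F 0 := by
    have e1 : F 6 = F 0 := hL 1 6 0 h
    have e2 : F 4 = F 1 := hL 1 6 1 h
    have e3 : F 7 = F 2 := hL 1 6 2 h
    have e4 : F 4 = F 3 := hR 1 6 2 h
    have e5 : F 5 = F 3 := hL 1 6 3 h
    have e6 : F 2 = F 6 := hR 1 6 3 h
    have c6 : F 6 = F 0 := e1
    have c1 : F 1 = F 0 := h.trans c6
    have c2 : F 2 = F 0 := e6.trans c6
    have c4 : F 4 = F 0 := e2.trans c1
    have c7 : F 7 = F 0 := e3.trans c2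
    have c3 : F 3 = F 0 := (e4.symm).trans c4
    have c5 : F 5 = F 0 := e5.trans c3
    intro i; fin_cases i
    · rfl
    · exact c1
    · exact c2
    · exact c3
    · exact c4
    · exact c5
    · exact c6
    · exact c7

theorem c_1_7 {X : Type} (F : Fin 8 → X)
    (hL : ∀ u v w : Fin 8, F u = F v → F (sg u w) = F (sg v w))
    (hR : ∀ u v w : Fin 8, F u = F v → F (sg w u) = F (sg w v))
    (h : F 1 = F 7) : ∀ i, F i = F 0 := by
    have e1 : F 6 = F 5 := hL 1 7 0 h
    have e2 : F 0 = F 7 := hR 1 7 0 h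
    have e3 : F 4 = F 6 := hL 1 7 1 h
    have e4 : F 4 = F 3 := hR 1 7 1 h
    have e5 : F 7 = F 4 := hL 1 7 2 h
    have e6 : F 2 = F 7 := hR 1 7 3 h
    have c7 : F 7 = F 0 := e2.symm
    have c1 : F 1 = F 0 := h.trans c7
    have c4 : F 4 = F 0 := (e5.symm).trans c7
    have c2 : F 2 = F 0 := e6.trans c7
    have c6 : F 6 = F 0 := (e3.symm).trans c4
    have c3 : F 3 = F 0 := (e4.symm).trans c4
    have c5 : F 5 = F 0 := (e1.symm).trans c6
    intro i; fin_cases i
    · rfl
    · exact c1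
    · exact c2
    · exact c3
    · exact c4
    · exact c5
    · exact c6
    · exact c7

theorem c_2_3 {X : Type} (F : Fin 8 → X)
    (hL : ∀ u v w : Fin 8, F u = F v → F (sg u w) = F (sg v w))
    (hR : ∀ u v w : Fin 8, F u = F v → F (sg w u) = F (sg w v))
    (h : F 2 = F 3) : ∀ i, F i = F 0 := by
    have e1 : F 6 = F 1 := hL 2 3 0 h
    have e2 : F 1 = F 2 := hR 2 3 0 h
    have e3 : F 4 = F 2 := hL 2 3 1 h
    have e4 : F 7 = F 5 := hR 2 3 1 h
    have e5 : F 7 = F 3 := hL 2 3 2 h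
    have e6 : F 5 = F 0 := hL 2 3 3 h
    have c5 : F 5 = F 0 := e6
    have c7 : F 7 = F 0 := e4.trans c5
    have c3 : F 3 = F 0 := (e5.symm).trans c7
    have c2 : F 2 = F 0 := h.trans c3
    have c1 : F 1 = F 0 := e2.trans c2
    have c4 : F 4 = F 0 := e3.trans c2
    have c6 : F 6 = F 0 := e1.trans c1
    intro i; fin_cases i
    · rfl
    · exact c1
    · exact c2
    · exact c3
    · exact c4
    · exact c5
    · exact c6
    · exact c7

theorem c_2_4 {X : Type} (F : Fin 8 → X)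
    (hL : ∀ u v w : Fin 8, F u = F v → F (sg u w) = F (sg v w))
    (hR : ∀ u v w : Fin 8, F u = F v → F (sg w u) = F (sg w v))
    (h : F 2 = F 4) : ∀ i, F i = F 0 := by
    have e1 : F 6 = F 4 := hL 2 4 0 h
    have e2 : F 1 = F 4 := hR 2 4 0 h
    have e3 : F 4 = F 7 := hL 2 4 1 h
    have e4 : F 7 = F 5 := hL 2 4 2 h
    have e5 : F 7 = F 0 := hR 2 4 2 h
    have e6 : F 3 = F 4 := hR 2 4 3 h
    have c7 : F 7 = F 0 := e5
    have c4 : F 4 = F 0 := e3.trans c7
    have c5 : F 5 = F 0 := (e4.symm).trans c7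
    have c2 : F 2 = F 0 := h.trans c4
    have c6 : F 6 = F 0 := e1.trans c4
    have c1 : F 1 = F 0 := e2.trans c4
    have c3 : F 3 = F 0 := e6.trans c4
    intro i; fin_cases i
    · rfl
    · exact c1
    · exact c2
    · exact c3
    · exact c4
    · exact c5
    · exact c6
    · exact c7

theorem c_2_5 {X : Type} (F : Fin 8 → X)
    (hL : ∀ u v w : Fin 8, F u = F v → F (sg u w) = F (sg v w))
    (hR : ∀ u v w : Fin 8, F u = F v → F (sg w u) = F (sg w v))
    (h : F 2 = F 5) : ∀ i, F i = F 0 := by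
    have e1 : F 6 = F 0 := hL 2 5 0 h
    have e2 : F 1 = F 5 := hR 2 5 0 h
    have e3 : F 4 = F 1 := hL 2 5 1 h
    have e4 : F 7 = F 0 := hR 2 5 1 h
    have e5 : F 7 = F 2 := hL 2 5 2 h
    have e6 : F 5 = F 3 := hL 2 5 3 h
    have c6 : F 6 = F 0 := e1
    have c7 : F 7 = F 0 := e4
    have c2 : F 2 = F 0 := (e5.symm).trans c7
    have c5 : F 5 = F 0 := (h.symm).trans c2
    have c1 : F 1 = F 0 := e2.trans c5
    have c3 : F 3 = F 0 := (e6.symm).trans c5
    have c4 : F 4 = F 0 := e3.trans c1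
    intro i; fin_cases i
    · rfl
    · exact c1
    · exact c2
    · exact c3
    · exact c4
    · exact c5
    · exact c6
    · exact c7

theorem c_2_6 {X : Type} (F : Fin 8 → X)
    (hL : ∀ u v w : Fin 8, F u = F v → F (sg u w) = F (sg v w))
    (hR : ∀ u v w : Fin 8, F u = F v → F (sg w u) = F (sg w v))
    (h : F 2 = F 6) : ∀ i, F i = F 0 := by
    have e1 : F 6 = F 0 := hL 2 6 0 h
    have e2 : F 1 = F 6 := hR 2 6 0 h
    have e3 : F 4 = F 1 := hL 2 6 1 h
    have e4 : F 7 = F 1 := hR 2 6 1 h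
    have e5 : F 7 = F 3 := hR 2 6 2 h
    have e6 : F 5 = F 3 := hL 2 6 3 h
    have c6 : F 6 = F 0 := e1
    have c2 : F 2 = F 0 := h.trans c6
    have c1 : F 1 = F 0 := e2.trans c6
    have c4 : F 4 = F 0 := e3.trans c1
    have c7 : F 7 = F 0 := e4.trans c1
    have c3 : F 3 = F 0 := (e5.symm).trans c7
    have c5 : F 5 = F 0 := e6.trans c3
    intro i; fin_cases i
    · rfl
    · exact c1
    · exact c2
    · exact c3
    · exact c4
    · exact c5
    · exact c6
    · exact c7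

theorem c_2_7 {X : Type} (F : Fin 8 → X)
    (hL : ∀ u v w : Fin 8, F u = F v → F (sg u w) = F (sg v w))
    (hR : ∀ u v w : Fin 8, F u = F v → F (sg w u) = F (sg w v))
    (h : F 2 = F 7) : ∀ i, F i = F 0 := by
    have e1 : F 6 = F 5 := hL 2 7 0 h
    have e2 : F 1 = F 7 := hR 2 7 0 h
    have e3 : F 4 = F 6 := hL 2 7 1 h
    have e4 : F 7 = F 3 := hR 2 7 1 h
    have e5 : F 7 = F 4 := hL 2 7 2 h
    have e6 : F 0 = F 1 := hL 2 7 4 h
    have c1 : F 1 = F 0 := e6.symm
    have c7 : F 7 = F 0 := (e2.symm).trans c1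
    have c2 : F 2 = F 0 := h.trans c7
    have c3 : F 3 = F 0 := (e4.symm).trans c7
    have c4 : F 4 = F 0 := (e5.symm).trans c7
    have c6 : F 6 = F 0 := (e3.symm).trans c4
    have c5 : F 5 = F 0 := (e1.symm).trans c6
    intro i; fin_cases i
    · rfl
    · exact c1
    · exact c2
    · exact c3
    · exact c4
    · exact c5
    · exact c6
    · exact c7

theorem c_3_4 {X : Type} (F : Fin 8 → X)
    (hL : ∀ u v w : Fin 8, F u = F v → F (sg u w) = F (sg v w))
    (hR : ∀ u v w : Fin 8, F u = F v → F (sg w u) = F (sg w v))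
    (h : F 3 = F 4) : ∀ i, F i = F 0 := by
    have e1 : F 1 = F 4 := hL 3 4 0 h
    have e2 : F 2 = F 4 := hR 3 4 0 h
    have e3 : F 2 = F 7 := hL 3 4 1 h
    have e4 : F 5 = F 2 := hR 3 4 1 h
    have e5 : F 5 = F 0 := hR 3 4 2 h
    have e6 : F 0 = F 6 := hL 3 4 3 h
    have c5 : F 5 = F 0 := e5
    have c6 : F 6 = F 0 := e6.symm
    have c2 : F 2 = F 0 := (e4.symm).trans c5
    have c4 : F 4 = F 0 := (e2.symm).trans c2
    have c7 : F 7 = F 0 := (e3.symm).trans c2
    have c3 : F 3 = F 0 := h.trans c4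
    have c1 : F 1 = F 0 := e1.trans c4
    intro i; fin_cases i
    · rfl
    · exact c1
    · exact c2
    · exact c3
    · exact c4
    · exact c5
    · exact c6
    · exact c7

theorem c_3_5 {X : Type} (F : Fin 8 → X)
    (hL : ∀ u v w : Fin 8, F u = F v → F (sg u w) = F (sg v w))
    (hR : ∀ u v w : Fin 8, F u = F v → F (sg w u) = F (sg w v))
    (h : F 3 = F 5) : ∀ i, F i = F 0 := by
    have e1 : F 1 = F 0 := hL 3 5 0 h
    have e2 : F 2 = F 5 := hR 3 5 0 h
    have e3 : F 2 = F 1 := hL 3 5 1 h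
    have e4 : F 4 = F 7 := hL 3 5 4 h
    have e5 : F 6 = F 3 := hR 3 5 4 h
    have e6 : F 6 = F 4 := hL 3 5 6 h
    have c1 : F 1 = F 0 := e1
    have c2 : F 2 = F 0 := e3.trans c1
    have c5 : F 5 = F 0 := (e2.symm).trans c2
    have c3 : F 3 = F 0 := h.trans c5
    have c6 : F 6 = F 0 := e5.trans c3
    have c4 : F 4 = F 0 := (e6.symm).trans c6
    have c7 : F 7 = F 0 := (e4.symm).trans c4
    intro i; fin_cases i
    · rfl
    · exact c1
    · exact c2
    · exact c3
    · exact c4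
    · exact c5
    · exact c6
    · exact c7

theorem c_3_6 {X : Type} (F : Fin 8 → X)
    (hL : ∀ u v w : Fin 8, F u = F v → F (sg u w) = F (sg v w))
    (hR : ∀ u v w : Fin 8, F u = F v → F (sg w u) = F (sg w v))
    (h : F 3 = F 6) : ∀ i, F i = F 0 := by
    have e1 : F 1 = F 0 := hL 3 6 0 h
    have e2 : F 2 = F 6 := hR 3 6 0 h
    have e3 : F 2 = F 1 := hL 3 6 1 h
    have e4 : F 5 = F 1 := hR 3 6 1 h
    have e5 : F 4 = F 6 := hL 3 6 4 h
    have e6 : F 5 = F 7 := hL 3 6 5 h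
    have c1 : F 1 = F 0 := e1
    have c2 : F 2 = F 0 := e3.trans c1
    have c5 : F 5 = F 0 := e4.trans c1
    have c6 : F 6 = F 0 := (e2.symm).trans c2
    have c7 : F 7 = F 0 := (e6.symm).trans c5
    have c3 : F 3 = F 0 := h.trans c6
    have c4 : F 4 = F 0 := e5.trans c6
    intro i; fin_cases i
    · rfl
    · exact c1
    · exact c2
    · exact c3
    · exact c4
    · exact c5
    · exact c6
    · exact c7

theorem c_3_7 {X : Type} (F : Fin 8 → X)
    (hL : ∀ u v w : Fin 8, F u = F v → F (sg u w) = F (sg v w))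
    (hR : ∀ u v w : Fin 8, F u = F v → F (sg w u) = F (sg w v))
    (h : F 3 = F 7) : ∀ i, F i = F 0 := by
    have e1 : F 1 = F 5 := hL 3 7 0 h
    have e2 : F 2 = F 7 := hR 3 7 0 h
    have e3 : F 2 = F 6 := hL 3 7 1 h
    have e4 : F 5 = F 3 := hR 3 7 1 h
    have e5 : F 3 = F 4 := hL 3 7 2 h
    have e6 : F 0 = F 7 := hL 3 7 3 h
    have c7 : F 7 = F 0 := e6.symm
    have c3 : F 3 = F 0 := h.trans c7
    have c2 : F 2 = F 0 := e2.trans c7
    have c5 : F 5 = F 0 := e4.trans c3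
    have c4 : F 4 = F 0 := (e5.symm).trans c3
    have c6 : F 6 = F 0 := (e3.symm).trans c2
    have c1 : F 1 = F 0 := e1.trans c5
    intro i; fin_cases i
    · rfl
    · exact c1
    · exact c2
    · exact c3
    · exact c4
    · exact c5
    · exact c6
    · exact c7

theorem c_4_5 {X : Type} (F : Fin 8 → X)
    (hL : ∀ u v w : Fin 8, F u = F v → F (sg u w) = F (sg v w))
    (hR : ∀ u v w : Fin 8, F u = F v → F (sg w u) = F (sg w v))
    (h : F 4 = F 5) : ∀ i, F i = F 0 := by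
    have e1 : F 4 = F 0 := hL 4 5 0 h
    have e2 : F 7 = F 1 := hL 4 5 1 h
    have e3 : F 2 = F 0 := hR 4 5 1 h
    have e4 : F 6 = F 3 := hL 4 5 3 h
    have e5 : F 1 = F 3 := hR 4 5 4 h
    have e6 : F 4 = F 3 := hL 4 0 0 e1
    have c4 : F 4 = F 0 := e1
    have c2 : F 2 = F 0 := e3
    have c5 : F 5 = F 0 := (h.symm).trans c4
    have c3 : F 3 = F 0 := (e6.symm).trans c4
    have c6 : F 6 = F 0 := e4.trans c3
    have c1 : F 1 = F 0 := e5.trans c3
    have c7 : F 7 = F 0 := e2.trans c1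
    intro i; fin_cases i
    · rfl
    · exact c1
    · exact c2
    · exact c3
    · exact c4
    · exact c5
    · exact c6
    · exact c7

theorem c_4_6 {X : Type} (F : Fin 8 → X)
    (hL : ∀ u v w : Fin 8, F u = F v → F (sg u w) = F (sg v w))
    (hR : ∀ u v w : Fin 8, F u = F v → F (sg w u) = F (sg w v))
    (h : F 4 = F 6) : ∀ i, F i = F 0 := by
    have e1 : F 4 = F 0 := hL 4 6 0 h
    have e2 : F 7 = F 1 := hL 4 6 1 h
    have e3 : F 2 = F 1 := hR 4 6 1 h
    have e4 : F 5 = F 2 := hL 4 6 2 h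
    have e5 : F 0 = F 3 := hR 4 6 2 h
    have e6 : F 1 = F 6 := hL 4 6 4 h
    have c4 : F 4 = F 0 := e1
    have c3 : F 3 = F 0 := e5.symm
    have c6 : F 6 = F 0 := (h.symm).trans c4
    have c1 : F 1 = F 0 := e6.trans c6
    have c7 : F 7 = F 0 := e2.trans c1
    have c2 : F 2 = F 0 := e3.trans c1
    have c5 : F 5 = F 0 := e4.trans c2
    intro i; fin_cases i
    · rfl
    · exact c1
    · exact c2
    · exact c3
    · exact c4
    · exact c5
    · exact c6
    · exact c7

theorem c_4_7 {X : Type} (F : Fin 8 → X)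
    (hL : ∀ u v w : Fin 8, F u = F v → F (sg u w) = F (sg v w))
    (hR : ∀ u v w : Fin 8, F u = F v → F (sg w u) = F (sg w v))
    (h : F 4 = F 7) : ∀ i, F i = F 0 := by
    have e1 : F 4 = F 5 := hL 4 7 0 h
    have e2 : F 7 = F 6 := hL 4 7 1 h
    have e3 : F 2 = F 3 := hR 4 7 1 h
    have e4 : F 0 = F 1 := hR 4 7 2 h
    have e5 : F 1 = F 2 := hR 4 7 4 h
    have e6 : F 4 = F 0 := hL 4 5 0 e1
    have c1 : F 1 = F 0 := e4.symm
    have c4 : F 4 = F 0 := e6
    have c2 : F 2 = F 0 := (e5.symm).trans c1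
    have c7 : F 7 = F 0 := (h.symm).trans c4
    have c5 : F 5 = F 0 := (e1.symm).trans c4
    have c3 : F 3 = F 0 := (e3.symm).trans c2
    have c6 : F 6 = F 0 := (e2.symm).trans c7
    intro i; fin_cases i
    · rfl
    · exact c1
    · exact c2
    · exact c3
    · exact c4
    · exact c5
    · exact c6
    · exact c7

theorem c_5_6 {X : Type} (F : Fin 8 → X)
    (hL : ∀ u v w : Fin 8, F u = F v → F (sg u w) = F (sg v w))
    (hR : ∀ u v w : Fin 8, F u = F v → F (sg w u) = F (sg w v))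
    (h : F 5 = F 6) : ∀ i, F i = F 0 := by
    have e1 : F 0 = F 1 := hR 5 6 1 h
    have e2 : F 2 = F 3 := hR 5 6 2 h
    have e3 : F 7 = F 6 := hL 5 6 4 h
    have e4 : F 3 = F 0 := hR 5 6 4 h
    have e5 : F 6 = F 4 := hR 5 6 5 h
    have e6 : F 3 = F 6 := hL 0 1 0 e1
    have c1 : F 1 = F 0 := e1.symm
    have c3 : F 3 = F 0 := e4
    have c2 : F 2 = F 0 := e2.trans c3
    have c6 : F 6 = F 0 := (e6.symm).trans c3
    have c5 : F 5 = F 0 := h.trans c6
    have c7 : F 7 = F 0 := e3.trans c6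
    have c4 : F 4 = F 0 := (e5.symm).trans c6
    intro i; fin_cases i
    · rfl
    · exact c1
    · exact c2
    · exact c3
    · exact c4
    · exact c5
    · exact c6
    · exact c7

theorem c_5_7 {X : Type} (F : Fin 8 → X)
    (hL : ∀ u v w : Fin 8, F u = F v → F (sg u w) = F (sg v w))
    (hR : ∀ u v w : Fin 8, F u = F v → F (sg w u) = F (sg w v))
    (h : F 5 = F 7) : ∀ i, F i = F 0 := by
    have e1 : F 0 = F 5 := hL 5 7 0 h
    have e2 : F 1 = F 6 := hL 5 7 1 h
    have e3 : F 0 = F 3 := hR 5 7 1 h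
    have e4 : F 2 = F 4 := hL 5 7 2 h
    have e5 : F 2 = F 1 := hR 5 7 2 h
    have e6 : F 7 = F 1 := hL 5 7 4 h
    have c5 : F 5 = F 0 := e1.symm
    have c3 : F 3 = F 0 := e3.symm
    have c7 : F 7 = F 0 := (h.symm).trans c5
    have c1 : F 1 = F 0 := (e6.symm).trans c7
    have c6 : F 6 = F 0 := (e2.symm).trans c1
    have c2 : F 2 = F 0 := e5.trans c1
    have c4 : F 4 = F 0 := (e4.symm).trans c2
    intro i; fin_cases i
    · rfl
    · exact c1
    · exact c2
    · exact c3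
    · exact c4
    · exact c5
    · exact c6
    · exact c7

theorem c_6_7 {X : Type} (F : Fin 8 → X)
    (hL : ∀ u v w : Fin 8, F u = F v → F (sg u w) = F (sg v w))
    (hR : ∀ u v w : Fin 8, F u = F v → F (sg w u) = F (sg w v))
    (h : F 6 = F 7) : ∀ i, F i = F 0 := by
    have e1 : F 0 = F 5 := hL 6 7 0 h
    have e2 : F 1 = F 6 := hL 6 7 1 h
    have e3 : F 1 = F 3 := hR 6 7 1 h
    have e4 : F 2 = F 4 := hL 6 7 2 h
    have e5 : F 0 = F 2 := hR 6 7 4 h
    have e6 : F 3 = F 0 := hL 0 5 0 e1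
    have c5 : F 5 = F 0 := e1.symm
    have c2 : F 2 = F 0 := e5.symm
    have c3 : F 3 = F 0 := e6
    have c4 : F 4 = F 0 := (e4.symm).trans c2
    have c1 : F 1 = F 0 := e3.trans c3
    have c6 : F 6 = F 0 := (e2.symm).trans c1
    have c7 : F 7 = F 0 := (h.symm).trans c6
    intro i; fin_cases i
    · rfl
    · exact c1
    · exact c2
    · exact c3
    · exact c4
    · exact c5
    · exact c6
    · exact c7

theorem all_cases {X : Type} (F : Fin 8 → X)
    (hL : ∀ u v w : Fin 8, F u = F v → F (sg u w) = F (sg v w))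
    (hR : ∀ u v w : Fin 8, F u = F v → F (sg w u) = F (sg w v))
    (a b : Fin 8) (hab : a < b) (h : F a = F b) : ∀ i, F i = F 0 := by
  fin_cases a <;> fin_cases b <;> first | (exact absurd hab (by decide)) | skip
  · exact c_0_1 F hL hR h
  · exact c_0_2 F hL hR h
  · exact c_0_3 F hL hR h
  · exact c_0_4 F hL hR h
  · exact c_0_5 F hL hR h
  · exact c_0_6 F hL hR h
  · exact c_0_7 F hL hR h
  · exact c_1_2 F hL hR h
  · exact c_1_3 F hL hR h
  · exact c_1_4 F hL hR h
  · exact c_1_5 F hL hR h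
  · exact c_1_6 F hL hR h
  · exact c_1_7 F hL hR h
  · exact c_2_3 F hL hR h
  · exact c_2_4 F hL hR h
  · exact c_2_5 F hL hR h
  · exact c_2_6 F hL hR h
  · exact c_2_7 F hL hR h
  · exact c_3_4 F hL hR h
  · exact c_3_5 F hL hR h
  · exact c_3_6 F hL hR h
  · exact c_3_7 F hL hR h
  · exact c_4_5 F hL hR h
  · exact c_4_6 F hL hR h
  · exact c_4_7 F hL hR h
  · exact c_5_6 F hL hR h
  · exact c_5_7 F hL hR h
  · exact c_6_7 F hL hR h

theorem rr_sol : IsSolution rr where
  nonempty := ⟨(0, 0)⟩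
  braid := by decide +kernel
  invol := by decide +kernel
  left := by
    intro x
    refine (Finite.injective_iff_bijective).1 ?_
    revert x
    unfold Function.Injective
    decide +kernel
  right := by
    intro x
    refine (Finite.injective_iff_bijective).1 ?_
    revert x
    unfold Function.Injective
    decide +kernel

theorem rr_simple : IsSimple rr := by
  refine ⟨by simp, ?_⟩
  intro X' r' hr' f hf hs
  by_cases hinj : Function.Injective f
  · exact Or.inl ⟨hinj, hs⟩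
  right
  have hL : ∀ u v w : Fin 8, f (dec u) = f (dec v) → f (dec (sg u w)) = f (dec (sg v w)) := by
    intro u v w h
    have h1 := congrArg Prod.fst (hf (dec u, dec w))
    have h2 := congrArg Prod.fst (hf (dec v, dec w))
    simp only [rr, Prod.map, enc_dec] at h1 h2
    rw [h1, h2, h]
  have hR : ∀ u v w : Fin 8, f (dec u) = f (dec v) → f (dec (sg w u)) = f (dec (sg w v)) := by
    intro u v w h
    have h1 := congrArg Prod.fst (hf (dec w, dec u))
    have h2 := congrArg Prod.fst (hf (dec w, dec v))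
    simp only [rr, Prod.map, enc_dec] at h1 h2
    rw [h1, h2, h]
  have key : ∀ i, f (dec i) = f (dec 0) := by
    unfold Function.Injective at hinj
    push Not at hinj
    obtain ⟨a, b, hab, hne⟩ := hinj
    have hne' : enc a ≠ enc b := fun h => hne (by rw [← dec_enc a, h, dec_enc])
    have hab' : f (dec (enc a)) = f (dec (enc b)) := by rw [dec_enc, dec_enc, hab]
    rcases lt_or_gt_of_ne hne' with h | h
    · exact all_cases (fun i => f (dec i)) hL hR _ _ h hab'
    · exact all_cases (fun i => f (dec i)) hL hR _ _ h hab'.symm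
  rw [Nat.card_eq_one_iff_exists]
  refine ⟨f (dec 0), fun y => ?_⟩
  obtain ⟨x, rfl⟩ := hs y
  rw [← dec_enc x]
  exact key _

/-- There are finite sets `Y`, `Z` with more than one element and a simple involutive non-degenerate
solution of the Yang-Baxter equation on `Y × Z` for which the sets `{y} × Z` are blocks of imprimitivity
of the permutation group `𝒢(X, r)`, although `|Z|` does not divide `|Y|` (here `|Y| = 2`, `|Z| = 4`). -/
theorem result : ∃ (Y Z : Type) (_ : Finite Y) (_ : Finite Z)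
    (r : (Y × Z) × (Y × Z) → (Y × Z) × (Y × Z)) (hr : IsSolution r),
    1 < Nat.card Y ∧ 1 < Nat.card Z ∧ IsSimple r ∧
    (∀ g ∈ permGroup hr, ∀ y : Y, ∃ y' : Y,
      g '' {p : Y × Z | p.1 = y} = {p : Y × Z | p.1 = y'}) ∧
    ¬ Nat.card Z ∣ Nat.card Y := by
  refine ⟨Fin 2, Fin 4, inferInstance, inferInstance, rr, rr_sol, by simp, by simp, rr_simple, ?_,
    by simp⟩
  intro g hg
  refine Subgroup.closure_induction (p := fun (g : Equiv.Perm (Fin 2 × Fin 4)) _ => ∀ y : Fin 2, ∃ y' : Fin 2,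
      g '' {p : Fin 2 × Fin 4 | p.1 = y} = {p : Fin 2 × Fin 4 | p.1 = y'}) ?_ ?_ ?_ ?_ hg
  · rintro _ ⟨x, rfl⟩ y
    refine ⟨(rr (x, (y, 0))).1.1, ?_⟩
    have h1 : ∀ (x : Fin 2 × Fin 4) (y : Fin 2) (z : Fin 4),
        (rr (x, (y, z))).1.1 = (rr (x, (y, 0))).1.1 := by decide +kernel
    have h2 : ∀ (x : Fin 2 × Fin 4) (y : Fin 2) (q : Fin 2 × Fin 4),
        q.1 = (rr (x, (y, 0))).1.1 → ∃ z : Fin 4, (rr (x, (y, z))).1 = q := by decide +kernel
    ext q
    constructor
    · rintro ⟨p, hp, rfl⟩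
      obtain ⟨p1, p2⟩ := p
      simp only [Set.mem_setOf_eq] at hp
      subst hp
      exact h1 x p1 p2
    · intro hq
      obtain ⟨z, hz⟩ := h2 x y q hq
      exact ⟨(y, z), rfl, hz⟩
  · intro y
    exact ⟨y, by simp⟩
  · intro a b _ _ ha hb y
    obtain ⟨y1, h1⟩ := hb y
    obtain ⟨y2, h2⟩ := ha y1
    refine ⟨y2, ?_⟩
    rw [← h2, ← h1, ← Set.image_comp]
    rfl
  · intro a _ ha y
    have hsurj : ∀ y : Fin 2, ∃ y0 : Fin 2,
        a '' {p : Fin 2 × Fin 4 | p.1 = y0} = {p : Fin 2 × Fin 4 | p.1 = y} := by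
      intro y
      obtain ⟨q, hq⟩ := a.surjective (y, 0)
      obtain ⟨y', hy'⟩ := ha q.1
      have h1 : a q ∈ a '' {p : Fin 2 × Fin 4 | p.1 = q.1} := ⟨q, rfl, rfl⟩
      rw [hy', hq] at h1
      have h2 : y = y' := h1
      exact ⟨q.1, by rw [hy', h2]⟩
    obtain ⟨y0, h0⟩ := hsurj y
    refine ⟨y0, ?_⟩
    rw [← h0, ← Set.image_comp]
    have : (a⁻¹ : Equiv.Perm (Fin 2 × Fin 4)) ∘ a = id := by
      ext p <;> simp
    rw [this, Set.image_id]

end Pool.Agent.Results.MP_9f168b_al.NonDividingBlocks
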